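import Pool.Agent.H14.AVS.S1
import Pool.Agent.H46.AVR.BAS

/-!
# Board `avs`, module CHH: base change of a pair of Gram matrices
(adapted from module CHB of board `avr`, helper45)
-/

set_option autoImplicit false

namespace Pool.AVS

open Polynomial Matrix Pool.AVR

theorem chh_thm : CHHStmt := by
  intro K _ a b c h G B g hR
  obtain ⟨e, h1, h2⟩ := hR
  refine ⟨fun j => ∑ k, g k j • e k, ?_, ?_⟩
  · intro i j
    have h3 := bas_bilin (basT a b c) h e G (fun i j => by
      rw [basT_apply, ← h1 i j, mul_comm]) g i j
    rw [basT_apply] at h3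
    rw [← h3, mul_comm h]
  · intro i j
    have h3 := bas_bilin (basT a b c) (X * h) e B (fun i j => by
      rw [basT_apply, ← h2 i j]
      ring_nf) g i j
    rw [basT_apply] at h3
    rw [← h3, mul_assoc X, mul_comm h]

end Pool.AVS
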