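import Pool.Agent.H1.AVS.LCU

/-!
# Board `avs`, module DEQ: equivariance and scaling
-/

set_option autoImplicit false

namespace Pool.AVS

open Polynomial Matrix Pool.AVR

namespace DEQ

open LCU

variable {K : Type} [Field K]

theorem det_sq {g : Matrix (Fin 3) (Fin 3) K} (h : gᵀ * AA K * g = AA K) : g.det * g.det = 1 := by
  have h1 := congrArg Matrix.det h
  rw [Matrix.det_mul, Matrix.det_mul, Matrix.det_transpose, AA_det] at h1
  linear_combination -h1

theorem det_ne {g : Matrix (Fin 3) (Fin 3) K} (h : gᵀ * AA K * g = AA K) : g.det ≠ 0 := by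
  intro h0
  have := det_sq h
  rw [h0] at this
  simp at this

theorem inj {g : Matrix (Fin 3) (Fin 3) K} (hg : g.det ≠ 0) :
    Function.Injective (fun u : Fin 3 → K => g *ᵥ u) := by
  refine Matrix.mulVec_injective_iff_isUnit.2 ?_
  rw [Matrix.isUnit_iff_isUnit_det]
  exact isUnit_iff_ne_zero.2 hg

theorem ne_iff {g : Matrix (Fin 3) (Fin 3) K} (hg : g.det ≠ 0) (z : Fin 3 → K) :
    z ≠ 0 ↔ g *ᵥ z ≠ 0 := by
  constructor
  · intro h h0
    apply h
    apply inj hg
    show g *ᵥ z = g *ᵥ 0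
    rw [h0, Matrix.mulVec_zero]
  · intro h h0
    apply h
    rw [h0, Matrix.mulVec_zero]

theorem cross_mul (g : Matrix (Fin 3) (Fin 3) K) (u v : Fin 3 → K) :
    gᵀ *ᵥ crossProduct (g *ᵥ u) (g *ᵥ v) = g.det • crossProduct u v := by
  funext i
  fin_cases i
  · simp only [cross_apply, Matrix.mulVec, dotProduct, Fin.sum_univ_three, Matrix.transpose_apply,
      Matrix.det_fin_three, Pi.smul_apply, smul_eq_mul, Matrix.cons_val, Fin.zero_eta, Fin.isValue]
    ring
  · simp only [cross_apply, Matrix.mulVec, dotProduct, Fin.sum_univ_three, Matrix.transpose_apply,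
      Matrix.det_fin_three, Pi.smul_apply, smul_eq_mul, Matrix.cons_val, Fin.mk_one, Fin.isValue]
    ring
  · simp only [cross_apply, Matrix.mulVec, dotProduct, Fin.sum_univ_three, Matrix.transpose_apply,
      Matrix.det_fin_three, Pi.smul_apply, smul_eq_mul, Matrix.cons_val, Fin.reduceFinMk,
      Fin.isValue]
    ring

theorem cross_smul (s t : K) (u v : Fin 3 → K) :
    crossProduct (s • u) (t • v) = (s * t) • crossProduct u v := by
  rw [map_smul, LinearMap.map_smul, LinearMap.smul_apply, smul_smul, mul_comm]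

end DEQ

open DEQ LCU in
theorem deq_thm (hCHI : CHIStmt) : DEQStmt := by
  intro K _ B g hB hg
  have hd := det_ne hg
  have hgu : IsUnit g := by
    rw [Matrix.isUnit_iff_isUnit_det]
    exact isUnit_iff_ne_zero.2 hd
  have hcov : ∀ (z : Fin 3 → K) (w : K), Cov (gᵀ * B * g) z w ↔ Cov B (g *ᵥ z) w := by
    intro z w
    unfold Cov
    rw [bil_conj, ← ne_iff hd z, ← bil_conj (AA K) g, hg]
  have hcs : ∀ (z : Fin 3 → K) (w t : K), t ≠ 0 → (Cov B (t • z) (t * w) ↔ Cov B z w) := by
    intro z w t ht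
    unfold Cov
    rw [bil_smul, bil_smul]
    constructor
    · rintro ⟨h1, h2, h3⟩
      refine ⟨fun h0 => h1 (by rw [h0, smul_zero]), ?_, ?_⟩
      · rcases mul_eq_zero.1 h2 with h4 | h4
        · exact absurd h4 (mul_ne_zero ht ht)
        · exact h4
      · have h4 : t ^ 2 * w ^ 2 = t ^ 2 * -bil B z z := by linear_combination h3
        exact mul_left_cancel₀ (pow_ne_zero 2 ht) h4
    · rintro ⟨h1, h2, h3⟩
      refine ⟨smul_ne_zero ht h1, by rw [h2, mul_zero], ?_⟩
      linear_combination t ^ 2 * h3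
  refine ⟨?_, hcov, ?_, ?_, hcs⟩
  · have hs : (gᵀ * B * g)ᵀ = gᵀ * B * g := symm_conj hB
    have h1 := (hCHI K B hB).1
    have h2 := (hCHI K (gᵀ * B * g) hs).2 (ia B) (ib B) (ic B)
    refine h2.1 ?_
    rw [← h1]
    obtain ⟨G, hG⟩ := hgu
    have h3 : AA K * (gᵀ * B * g) = (G⁻¹ : (Matrix (Fin 3) (Fin 3) K)ˣ).val * (AA K * B) * G.val := by
      have h4 : AA K * gᵀ = (G⁻¹ : (Matrix (Fin 3) (Fin 3) K)ˣ).val * AA K := by
        have h5 := orth_swap hg
        calc AA K * gᵀ = ((G⁻¹ : (Matrix (Fin 3) (Fin 3) K)ˣ).val * G.val) * (AA K * gᵀ) := by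
              rw [Units.inv_mul, Matrix.one_mul]
          _ = (G⁻¹ : (Matrix (Fin 3) (Fin 3) K)ˣ).val * (g * AA K * gᵀ) := by
              rw [hG]
              simp only [Matrix.mul_assoc]
          _ = _ := by rw [h5]
      calc AA K * (gᵀ * B * g) = (AA K * gᵀ) * B * g := by simp only [Matrix.mul_assoc]
        _ = _ := by
          rw [h4, hG]
          simp only [Matrix.mul_assoc]
    rw [h3, Matrix.charpoly_mul_comm, ← Matrix.mul_assoc, Units.mul_inv, Matrix.one_mul]
  · intro h1 z z' w w' x y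
    unfold Dif
    have e1 : bil (AA K) (g *ᵥ z) (g *ᵥ z') = bil (AA K) z z' := by rw [← bil_conj, hg]
    have e2 : (x • AA K - gᵀ * B * g) *ᵥ (w' • z + w • z') =
        gᵀ *ᵥ ((x • AA K - B) *ᵥ (w' • g *ᵥ z + w • g *ᵥ z')) := by
      have e3 : x • AA K - gᵀ * B * g = gᵀ * (x • AA K - B) * g := by
        rw [Matrix.mul_sub, Matrix.sub_mul, Matrix.mul_smul, Matrix.smul_mul, hg]
      rw [e3, ← Matrix.mulVec_smul, ← Matrix.mulVec_smul, ← Matrix.mulVec_add,
        Matrix.mulVec_mulVec, Matrix.mulVec_mulVec, Matrix.mul_assoc]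
    have e4 : y • crossProduct z z' = gᵀ *ᵥ (y • crossProduct (g *ᵥ z) (g *ᵥ z')) := by
      rw [Matrix.mulVec_smul, cross_mul, h1, one_smul]
    rw [bil_conj, e1, e2, e4]
    have hd' : gᵀ.det ≠ 0 := by rw [Matrix.det_transpose]; exact hd
    constructor
    · rintro ⟨k1, k2, k3⟩
      exact ⟨k1, k2, inj hd' k3⟩
    · rintro ⟨k1, k2, k3⟩
      exact ⟨k1, k2, by rw [k3]⟩
  · intro z z' w w' x y t t' ht ht'
    unfold Dif
    rw [bil_smul, bil_smul, cross_smul]
    have e1 : (x • AA K - B) *ᵥ ((t' * w') • t • z + (t * w) • t' • z') =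
        (t * t') • ((x • AA K - B) *ᵥ (w' • z + w • z')) := by
      rw [← Matrix.mulVec_smul]
      congr 1
      rw [smul_add, smul_smul, smul_smul, smul_smul, smul_smul]
      congr 2 <;> ring
    rw [e1, smul_comm y (t * t')]
    have htt : t * t' ≠ 0 := mul_ne_zero ht ht'
    constructor
    · rintro ⟨k1, k2, k3⟩
      refine ⟨fun h => k1 (by rw [h, mul_zero]), ?_, ?_⟩
      · have : (t * t') * (x * bil (AA K) z z') = (t * t') * (bil B z z' - w * w') := by
          linear_combination k2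
        exact mul_left_cancel₀ htt this
      · exact smul_right_injective _ htt k3
    · rintro ⟨k1, k2, k3⟩
      refine ⟨mul_ne_zero htt k1, ?_, ?_⟩
      · linear_combination (t * t') * k2
      · rw [k3]

end Pool.AVS
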