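import Pool.Agent.H14.AVS.S2

/-!
# Board `avs`, module LCU: many pairs (lattice, smooth point)
-/

set_option autoImplicit false

namespace Pool.AVS

open Polynomial Matrix Pool.AVR

namespace LCU

variable {L : Type} [Field L]

theorem bil_conj (B g : Matrix (Fin 3) (Fin 3) L) (u v : Fin 3 → L) :
    bil (gᵀ * B * g) u v = bil B (g *ᵥ u) (g *ᵥ v) := by
  simp only [bil, Matrix.mul_apply, Matrix.mulVec, dotProduct, Fin.sum_univ_three,
    Matrix.transpose_apply]
  ring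

theorem bil_smul (B : Matrix (Fin 3) (Fin 3) L) (s t : L) (u v : Fin 3 → L) :
    bil B (s • u) (t • v) = s * t * bil B u v := by
  simp only [bil, Matrix.mulVec, dotProduct, Fin.sum_univ_three, Pi.smul_apply, smul_eq_mul]
  ring

theorem bil_symm {B : Matrix (Fin 3) (Fin 3) L} (hB : Bᵀ = B) (u v : Fin 3 → L) :
    bil B u v = bil B v u := by
  have h : ∀ i j, B i j = B j i := fun i j => by
    have := congrFun (congrFun hB i) j
    rw [Matrix.transpose_apply] at this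
    exact this.symm
  simp only [bil, Matrix.mulVec, dotProduct, Fin.sum_univ_three]
  rw [h 1 0, h 2 0, h 2 1]
  ring

theorem bil_e0 (B : Matrix (Fin 3) (Fin 3) L) : bil B ![1, 0, 0] ![1, 0, 0] = B 0 0 := by
  simp [bil, Matrix.mulVec, dotProduct, Fin.sum_univ_three]

theorem AA_symm : (AA L)ᵀ = AA L := by
  ext i j
  fin_cases i <;> fin_cases j <;> rfl

theorem AA_sq : AA L * AA L = 1 := by
  ext i j
  fin_cases i <;> fin_cases j <;> simp [AA, Matrix.mul_apply, Fin.sum_univ_three]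

theorem AA_det : (AA L).det = -1 := by
  simp [AA, Matrix.det_fin_three]

theorem orth_swap {g : Matrix (Fin 3) (Fin 3) L} (h : gᵀ * AA L * g = AA L) :
    g * AA L * gᵀ = AA L := by
  have h1 : (AA L * gᵀ * AA L) * g = 1 := by
    rw [Matrix.mul_assoc, Matrix.mul_assoc (AA L), ← Matrix.mul_assoc gᵀ, h, AA_sq]
  have h2 : g * (AA L * gᵀ * AA L) = 1 := by
    exact mul_eq_one_comm.1 h1
  calc g * AA L * gᵀ = g * AA L * gᵀ * (AA L * AA L) := by rw [AA_sq, Matrix.mul_one]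
    _ = g * (AA L * gᵀ * AA L) * AA L := by simp only [Matrix.mul_assoc]
    _ = AA L := by rw [h2, Matrix.one_mul]

/-- A point of the covering with its lattice. -/
structure Good (O : ValuationSubring L) (B : Matrix (Fin 3) (Fin 3) L) (z : Fin 3 → L) (w : L)
    (g : Matrix (Fin 3) (Fin 3) L) (μ : L) : Prop where
  cov : Cov B z w
  wne : w ≠ 0
  orth : gᵀ * AA L * g = AA L
  det1 : g.det = 1
  int : MI (O : Set L) (gᵀ * B * g)
  mne : μ ≠ 0
  ge : g *ᵥ ![1, 0, 0] = μ • z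
  mem : μ * w ∈ O
  un : UI (O : Set L) (μ * w) ∨ UI (O : Set L) ((gᵀ * B * g) 0 1)

theorem ui_div {O : ValuationSubring L} {π : L} (hL : Loc L O π) {u : L}
    (hu : UI (O : Set L) u) : u / π ∉ O := fun h => (hL.unif u hu.2.1 hu.1).2 h hu.2.2

theorem ui_one {O : ValuationSubring L} : UI (O : Set L) (1 : L) := by
  refine ⟨one_ne_zero, ?_, ?_⟩
  · exact O.one_mem
  · rw [inv_one]
    exact O.one_mem

theorem symm_conj {B g : Matrix (Fin 3) (Fin 3) L} (hB : Bᵀ = B) :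
    (gᵀ * B * g)ᵀ = gᵀ * B * g := by
  rw [Matrix.transpose_mul, Matrix.transpose_mul, Matrix.transpose_transpose, hB,
    Matrix.mul_assoc]

theorem smo {O : ValuationSubring L} {π : L} (hL : Loc L O π) (hDEQ : DEQStmt)
    {B : Matrix (Fin 3) (Fin 3) L} (hB : Bᵀ = B) {z : Fin 3 → L} {w : L}
    {g : Matrix (Fin 3) (Fin 3) L} {μ : L} (h : Good O B z w g μ) :
    Cov (gᵀ * B * g) ![1, 0, 0] (μ * w) ∧
      Smo (O : Set L) π (AA L) (gᵀ * B * g) ![1, 0, 0] (μ * w) := by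
  have hcov : Cov (gᵀ * B * g) ![1, 0, 0] (μ * w) := by
    rw [(hDEQ L B g hB h.orth).2.1, h.ge, (hDEQ L B g hB h.orth).2.2.2.2 z w μ h.mne]
    exact h.cov
  refine ⟨hcov, ?_, h.mem, ⟨0, ?_⟩, ?_, ?_, ?_⟩
  · intro i
    fin_cases i
    · exact O.one_mem
    · exact O.zero_mem
    · exact O.zero_mem
  · exact ui_div hL ui_one
  · rw [hcov.2.1, zero_div]
    exact O.zero_mem
  · rw [hcov.2.2, neg_add_cancel, zero_div]
    exact O.zero_mem
  · rintro ⟨h1, ν, -, h2⟩
    rcases h.un with hu | hu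
    · exact ui_div hL hu h1
    · refine ui_div hL hu ?_
      have h3 := h2 1
      have hs := congrFun (congrFun (symm_conj (g := g) hB) 0) 1
      rw [Matrix.transpose_apply] at hs
      have h4 : ((gᵀ * B * g) *ᵥ ![1, 0, 0]) 1 = (gᵀ * B * g) 0 1 := by
        rw [← hs]
        simp only [Matrix.mulVec, dotProduct, Fin.sum_univ_three, Matrix.cons_val]
        ring
      have h5 : ((AA L) *ᵥ ![1, 0, 0]) 1 = 0 := by
        simp [AA, Matrix.mulVec, dotProduct, Fin.sum_univ_three]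
      rw [h4, h5, mul_zero, sub_zero] at h3
      exact h3

theorem kp {O : ValuationSubring L} {π : L} (hL : Loc L O π) (hDEQ : DEQStmt)
    {B : Matrix (Fin 3) (Fin 3) L} (hB : Bᵀ = B) {z : Fin 3 → L} {w : L}
    {g : Matrix (Fin 3) (Fin 3) L} {μ : L} (h : Good O B z w g μ) :
    KP (O : Set L) π B g ![1, 0, 0] (μ * w) := by
  refine ⟨by rw [h.det1]; exact one_ne_zero, ?_, h.int, ?_⟩
  · rw [h.orth]
    refine ⟨?_, ?_⟩
    · intro i j
      fin_cases i <;> fin_cases j <;>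
        first
        | exact O.zero_mem
        | exact O.one_mem
    · rw [AA_det]
      refine ⟨neg_ne_zero.2 one_ne_zero, O.neg_mem _ O.one_mem, ?_⟩
      rw [inv_neg, inv_one]
      exact O.neg_mem _ O.one_mem
  · rw [h.orth]
    exact (smo hL hDEQ hB h).2

theorem key {O : ValuationSubring L} {π : L} (hL : Loc L O π) (hDEQ : DEQStmt) (hDS1 : DS1Stmt)
    {B : Matrix (Fin 3) (Fin 3) L} (hB : Bᵀ = B) {z₁ z₂ : Fin 3 → L} {w₁ w₂ : L}
    {g₁ g₂ : Matrix (Fin 3) (Fin 3) L} {μ₁ μ₂ : L} (h₁ : Good O B z₁ w₁ g₁ μ₁)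
    (h₂ : Good O B z₂ w₂ g₂ μ₂)
    (hE : Eqv (O : Set L) π g₁ ![1, 0, 0] (μ₁ * w₁) g₂ ![1, 0, 0] (μ₂ * w₂)) :
    (∀ x : L, bil (AA L) z₁ z₂ ≠ 0 → x * bil (AA L) z₁ z₂ = bil B z₁ z₂ - w₁ * w₂ → x ∉ O) ∧
    (∀ v : L, z₂ = v • z₁ → w₂ = -v * w₁ → bil (B * AA L * B) z₁ z₁ / w₁ ^ 2 ∉ O) := by
  obtain ⟨κ, hκ, hg, t, ht, k1, k2⟩ := hE
  have hge2 : g₁ *ᵥ (κ *ᵥ ![1, 0, 0]) = μ₂ • z₂ := by
    rw [Matrix.mulVec_mulVec, ← hg, h₂.ge]
  have hcov2 : Cov (g₁ᵀ * B * g₁) (κ *ᵥ ![1, 0, 0]) (μ₂ * w₂) := by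
    rw [(hDEQ L B g₁ hB h₁.orth).2.1, hge2, (hDEQ L B g₁ hB h₁.orth).2.2.2.2 z₂ w₂ μ₂ h₂.mne]
    exact h₂.cov
  obtain ⟨hcov1, hsm⟩ := smo hL hDEQ hB h₁
  obtain ⟨d1, d2⟩ := hDS1 L O π hL (g₁ᵀ * B * g₁) ![1, 0, 0] (κ *ᵥ ![1, 0, 0]) (μ₁ * w₁) (μ₂ * w₂) t
    (symm_conj hB) h₁.int hcov1 hcov2 hsm (by
      intro i
      have : (κ *ᵥ ![1, 0, 0]) i = κ i 0 := by
        simp only [Matrix.mulVec, dotProduct, Fin.sum_univ_three, Matrix.cons_val]
        ring
      rw [this]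
      exact hκ.1 i 0) ht k1 k2
  have hA : bil (AA L) ![1, 0, 0] (κ *ᵥ ![1, 0, 0]) = μ₁ * μ₂ * bil (AA L) z₁ z₂ := by
    have h3 := bil_conj (AA L) g₁ ![1, 0, 0] (κ *ᵥ ![1, 0, 0])
    rw [h₁.orth, h₁.ge, hge2, bil_smul] at h3
    exact h3
  have hBB : bil (g₁ᵀ * B * g₁) ![1, 0, 0] (κ *ᵥ ![1, 0, 0]) = μ₁ * μ₂ * bil B z₁ z₂ := by
    rw [bil_conj, h₁.ge, hge2, bil_smul]
  refine ⟨?_, ?_⟩
  · intro x hx0 hx
    refine d1 x ?_ ?_
    · rw [hA]
      exact mul_ne_zero (mul_ne_zero h₁.mne h₂.mne) hx0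
    · rw [hA, hBB]
      linear_combination (μ₁ * μ₂) * hx
  · intro v hv hw
    have hinj : Function.Injective (fun u : Fin 3 → L => g₁ *ᵥ u) := by
      refine Matrix.mulVec_injective_iff_isUnit.2 ?_
      rw [Matrix.isUnit_iff_isUnit_det, h₁.det1]
      exact isUnit_one
    have e1 : κ *ᵥ ![1, 0, 0] = (μ₂ * v / μ₁) • ![1, 0, 0] := by
      apply hinj
      show g₁ *ᵥ (κ *ᵥ ![1, 0, 0]) = g₁ *ᵥ ((μ₂ * v / μ₁) • ![1, 0, 0])
      rw [hge2, Matrix.mulVec_smul, h₁.ge, smul_smul, hv, smul_smul,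
        div_mul_cancel₀ _ h₁.mne]
    have e2 := d2 (μ₂ * v / μ₁) e1 (by
      rw [hw]
      field_simp [h₁.mne]) (mul_ne_zero h₁.mne h₁.wne)
    have e3 : (g₁ᵀ * B * g₁) * AA L * (g₁ᵀ * B * g₁) = g₁ᵀ * (B * AA L * B) * g₁ := by
      calc (g₁ᵀ * B * g₁) * AA L * (g₁ᵀ * B * g₁) = g₁ᵀ * B * (g₁ * AA L * g₁ᵀ) * B * g₁ := by
            simp only [Matrix.mul_assoc]
        _ = _ := by
            rw [orth_swap h₁.orth]
            simp only [Matrix.mul_assoc]
    rw [e3, bil_conj, h₁.ge, bil_smul] at e2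
    have e4 : μ₁ * μ₁ * bil (B * AA L * B) z₁ z₁ / (μ₁ * w₁) ^ 2 =
        bil (B * AA L * B) z₁ z₁ / w₁ ^ 2 := by
      have := h₁.mne
      have := h₁.wne
      field_simp
    rw [e4] at e2
    exact e2

end LCU

open LCU in
theorem lcu_thm (hEBW : EBWStmt) (hTOR : TORStmt) (hLTO : LTOStmt) (hDS1 : DS1Stmt)
    (hSLP : SLPStmt) (hDEQ : DEQStmt) (hDIX : DIXStmt) (hISV : ISVStmt) : LCUStmt := by
  intro L _ O π hL N a b c hdisc B z₀ w₀ hB ha hb hc hcov hw0
  have h2 : (2 : L) ≠ 0 := hL.two.1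
  obtain ⟨Z, hZ, hTR⟩ := hTOR L h2 B z₀ w₀ hB hcov hw0
  obtain ⟨s, hs1, hs2, hs3⟩ := hEBW L O π hL N a b c hdisc Z hZ
  have haO : ia B ∈ O := by rw [ha]; exact a.2
  have hbO : ib B ∈ O := by rw [hb]; exact b.2
  have hcO : ic B ∈ O := by rw [hc]; exact c.2
  have hgood : ∀ (z : Fin 3 → L) (w : L), Cov B z w → w ≠ 0 → ∃ g μ, Good O B z w g μ := by
    intro z w h1 h3
    obtain ⟨g, μ, k1, k2, k3, k4, k5, k6, k7⟩ := hLTO L O π hL B z w hB haO hbO hcO h1 h3
    exact ⟨g, μ, h1, h3, k1, k2, k3, k4, k5, k6, k7⟩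
  obtain ⟨g₀, μ₀, G0⟩ := hgood z₀ w₀ hcov hw0
  have H : ∀ p : {p // p ∈ s}, ∃ (z : Fin 3 → L) (w : L) (g : Matrix (Fin 3) (Fin 3) L) (μ : L),
      Good O B z w g μ ∧ Dif B z₀ w₀ z w p.1.1 p.1.2 := by
    rintro ⟨p, hp⟩
    obtain ⟨-, -, k3, k4⟩ := hs1 p hp
    obtain ⟨z, w, l1, l2, l3⟩ := hTR p.1 p.2 (by rw [ha, hb, hc]; exact k3) k4
    obtain ⟨g, μ, hG⟩ := hgood z w l1 l2
    exact ⟨z, w, g, μ, hG, l3⟩
  choose zf wf gf μf hGf hDf using H
  let gi : Option {p // p ∈ s} → Matrix (Fin 3) (Fin 3) L := fun i => i.elim g₀ gf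
  let wi : Option {p // p ∈ s} → L := fun i => i.elim (μ₀ * w₀) fun p => μf p * wf p
  have hcard : Fintype.card (Option {p // p ∈ s}) = s.card + 1 := by
    rw [Fintype.card_option, Fintype.card_coe]
  let e := Fintype.equivFinOfCardEq hcard
  refine ⟨s.card + 1, fun i => gi (e.symm i), fun _ => ![1, 0, 0], fun i => wi (e.symm i),
    ?_, ?_, ?_⟩
  · have hK : ∀ i : Option {p // p ∈ s}, KP (O : Set L) π B (gi i) ![1, 0, 0] (wi i) := by
      intro i
      rcases i with _ | p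
      · exact kp hL hDEQ hB G0
      · exact kp hL hDEQ hB (hGf p)
    intro i
    exact hK _
  · have hmain : ∀ i j : Option {p // p ∈ s}, i ≠ j →
        ¬ Eqv (O : Set L) π (gi i) ![1, 0, 0] (wi i) (gi j) ![1, 0, 0] (wi j) := by
      intro i j hij hE
      rcases i with _ | p
      · rcases j with _ | q
        · exact hij rfl
        · have h3 := (key hL hDEQ hDS1 hB G0 (hGf q) hE).1 q.1.1 (hDf q).1 (hDf q).2.1
          exact h3 (hs1 q.1 q.2).1
      · rcases j with _ | q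
        · have h3 := (key hL hDEQ hDS1 hB (hGf p) G0 hE).1 p.1.1 (by
              rw [bil_symm AA_symm]
              exact (hDf p).1) (by
              rw [bil_symm AA_symm, bil_symm hB, (hDf p).2.1]
              ring)
          exact h3 (hs1 p.1 p.2).1
        · have hpq : p.1 ≠ q.1 := fun h => hij (by rw [Subtype.ext h])
          obtain ⟨hx, hsl⟩ := hs2 p.1 p.2 q.1 q.2 hpq
          have hx' : p.1.1 - q.1.1 ≠ 0 := sub_ne_zero.2 hx
          obtain ⟨u, hu⟩ : ∃ u, u = (p.1.2 + q.1.2) / (p.1.1 - q.1.1) := ⟨_, rfl⟩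
          have hu' : p.1.2 + q.1.2 = u * (p.1.1 - q.1.1) := by
            rw [hu, div_mul_cancel₀ _ hx']
          rw [← hu] at hsl
          have hk := key hL hDEQ hDS1 hB (hGf p) (hGf q) hE
          by_cases hA : bil (AA L) (zf p) (zf q) = 0
          · obtain ⟨t, ht, hzt⟩ := (hISV L h2).2.2.2 (zf p) (zf q) (hGf p).cov.1 (hGf q).cov.1
              (hGf p).cov.2.1 (hGf q).cov.2.1 hA
            have hw2 : wf q ^ 2 = (t * wf p) ^ 2 := by
              rw [(hGf q).cov.2.2, hzt, bil_smul, mul_pow, (hGf p).cov.2.2]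
              ring
            rcases sq_eq_sq_iff_eq_or_eq_neg.1 hw2 with hw | hw
            · apply hx
              have h3 := (hDf q).2.1
              rw [hzt, hw] at h3
              have h4 : bil (AA L) z₀ (t • zf p) = t * bil (AA L) z₀ (zf p) := by
                have := bil_smul (AA L) 1 t z₀ (zf p)
                rw [one_smul, one_mul] at this
                exact this
              have h5 : bil B z₀ (t • zf p) = t * bil B z₀ (zf p) := by
                have := bil_smul B 1 t z₀ (zf p)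
                rw [one_smul, one_mul] at this
                exact this
              rw [h4, h5] at h3
              have h6 := (hDf p).2.1
              have h7 : t * bil (AA L) z₀ (zf p) * (p.1.1 - q.1.1) = 0 := by
                linear_combination t * h6 - h3
              rcases mul_eq_zero.1 h7 with h8 | h8
              · exact absurd h8 (mul_ne_zero ht (hDf p).1)
              · exact sub_eq_zero.1 h8
            · have hw' : wf q = -t * wf p := by rw [hw]; ring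
              have hcov' : Cov B (zf p) (-wf p) := by
                refine ⟨(hGf p).cov.1, (hGf p).cov.2.1, ?_⟩
                rw [neg_sq, (hGf p).cov.2.2]
              have hD' : Dif B z₀ w₀ (zf p) (-wf p) q.1.1 q.1.2 := by
                have h3 := (hDEQ L B 1 hB (by simp)).2.2.2.1 z₀ (zf p) w₀ (-wf p) q.1.1 q.1.2 1 t
                  one_ne_zero ht
                rw [one_smul, one_mul, ← hzt] at h3
                refine h3.1 ?_
                have h4 : t * -wf p = wf q := by rw [hw]; ring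
                rw [h4]
                exact hDf q
              have h3 := (hSLP L h2 B z₀ (zf p) (zf p) w₀ (wf p) (-wf p) p.1.1 p.1.2 q.1.1 q.1.2 hB
                hcov (hGf p).cov hcov' (hDf p) hD').2 (hGf p).wne rfl rfl
              have h4 : bil (B * AA L * B) (zf p) (zf p) / wf p ^ 2 = u ^ 2 - p.1.1 - q.1.1 := by
                have h5 : (p.1.1 - q.1.1) ^ 2 * (bil (B * AA L * B) (zf p) (zf p) / wf p ^ 2) =
                    (p.1.1 - q.1.1) ^ 2 * (u ^ 2 - p.1.1 - q.1.1) := by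
                  rw [hu'] at h3
                  linear_combination -h3
                exact mul_left_cancel₀ (pow_ne_zero 2 hx') h5
              refine hk.2 t hzt hw' ?_
              rw [h4]
              exact sub_mem (sub_mem (pow_mem hsl 2) (hs1 p.1 p.2).1) (hs1 q.1 q.2).1
          · obtain ⟨x, y, hD, -⟩ := hDIX L h2 B (zf p) (zf q) (wf p) (wf q) hB (hGf p).cov
              (hGf q).cov hA
            have h3 := (hSLP L h2 B z₀ (zf p) (zf q) w₀ (wf p) (wf q) p.1.1 p.1.2 q.1.1 q.1.2 hB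
              hcov (hGf p).cov (hGf q).cov (hDf p) (hDf q)).1 x y hD
            have h4 : x = u ^ 2 - ia B - p.1.1 - q.1.1 := by
              have h5 : (p.1.1 - q.1.1) ^ 2 * x =
                  (p.1.1 - q.1.1) ^ 2 * (u ^ 2 - ia B - p.1.1 - q.1.1) := by
                rw [hu'] at h3
                linear_combination -h3
              exact mul_left_cancel₀ (pow_ne_zero 2 hx') h5
            refine hk.1 x hD.1 hD.2.1 ?_
            rw [h4]
            exact sub_mem (sub_mem (sub_mem (pow_mem hsl 2) haO) (hs1 p.1 p.2).1) (hs1 q.1 q.2).1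
    intro i j hij
    exact hmain _ _ fun h => hij (e.symm.injective h)
  · calc _ ≤ s.card * kap O ^ (N - 1) + kap O ^ (N - 1) := Nat.add_le_add_right hs3 _
      _ = (s.card + 1) * kap O ^ (N - 1) := by ring

end Pool.AVS
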