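import Pool.Agent.H14.AVS.S6

/-!
# Board `avs`, module SHI: the Selmer group does not depend on the equation
-/

set_option autoImplicit false

namespace Pool.AVS

open Polynomial Pool.AVR

namespace SHI

section Gen

variable {K : Type} [Field K]

/-- The substitution `x' = l² x + r` over a field. -/
structure Sub (l r a b c a' b' c' : K) : Prop where
  ne : l ≠ 0
  ha : a' = l ^ 2 * a - 3 * r
  hb : b' = l ^ 4 * b - 2 * l ^ 2 * r * a + 3 * r ^ 2
  hc : c' = l ^ 6 * c - l ^ 4 * r * b + l ^ 2 * r ^ 2 * a - r ^ 3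

variable {l r a b c a' b' c' : K}

theorem Sub.symm (h : Sub l r a b c a' b' c') : Sub l⁻¹ (-(r / l ^ 2)) a' b' c' a b c := by
  have hl := h.ne
  refine ⟨inv_ne_zero hl, ?_, ?_, ?_⟩
  · rw [h.ha]
    field_simp
    ring
  · rw [h.ha, h.hb]
    field_simp
    ring
  · rw [h.ha, h.hb, h.hc]
    field_simp
    ring

/-- the substituted polynomial -/
noncomputable def qq (l r : K) : K[X] := C (l ^ 2) * X + C r

theorem cub_comp (h : Sub l r a b c a' b' c') :
    (cub a' b' c').comp (qq l r) = C (l ^ 6) * cub a b c := by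
  unfold cub qq
  rw [h.ha, h.hb, h.hc]
  simp only [add_comp, mul_comp, pow_comp, X_comp, C_comp]
  simp only [C_add, C_sub, C_mul, C_pow, map_ofNat]
  ring

theorem mk_comp (f p q : K[X]) :
    AdjoinRoot.mk f (p.comp q) =
      eval₂ (algebraMap K (AdjoinRoot f)) (AdjoinRoot.mk f q) p := by
  rw [Polynomial.comp, Polynomial.hom_eval₂]
  rfl

/-- the homomorphism -/
noncomputable def hom (h : Sub l r a b c a' b' c') :
    AdjoinRoot (cub a' b' c') →ₐ[K] AdjoinRoot (cub a b c) :=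
  AdjoinRoot.liftAlgHom (cub a' b' c') (Algebra.ofId K _) (AdjoinRoot.mk _ (qq l r)) (by
    have h1 := mk_comp (cub a b c) (cub a' b' c') (qq l r)
    rw [cub_comp h, map_mul, AdjoinRoot.mk_self, mul_zero] at h1
    exact h1.symm)

theorem hom_mk (h : Sub l r a b c a' b' c') (p : K[X]) :
    hom h (AdjoinRoot.mk _ p) = AdjoinRoot.mk _ (p.comp (qq l r)) := by
  rw [mk_comp]
  rfl

theorem hom_hom (h : Sub l r a b c a' b' c') :
    (hom h).comp (hom h.symm) = AlgHom.id K _ := by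
  apply AdjoinRoot.algHom_ext
  rw [AlgHom.comp_apply, AdjoinRoot.root, hom_mk, hom_mk, AlgHom.id_apply]
  congr 1
  have hl := h.ne
  have h1 : (C l⁻¹ : K[X]) ^ 2 * C l ^ 2 = 1 := by
    rw [← mul_pow, ← C_mul, inv_mul_cancel₀ hl, C_1, one_pow]
  have h2 : (C (r / l ^ 2) : K[X]) = C l⁻¹ ^ 2 * C r := by
    rw [← C_pow, ← C_mul]
    congr 1
    field_simp
  unfold qq
  simp only [add_comp, mul_comp, X_comp, C_comp]
  simp only [C_pow, C_neg, h2]
  linear_combination X * h1

theorem hom_hom' (h : Sub l r a b c a' b' c') :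
    (hom h.symm).comp (hom h) = AlgHom.id K _ := by
  apply AdjoinRoot.algHom_ext
  rw [AlgHom.comp_apply, AdjoinRoot.root, hom_mk, hom_mk, AlgHom.id_apply]
  congr 1
  have hl := h.ne
  have h1 : (C l⁻¹ : K[X]) ^ 2 * C l ^ 2 = 1 := by
    rw [← mul_pow, ← C_mul, inv_mul_cancel₀ hl, C_1, one_pow]
  have h2 : (C (r / l ^ 2) : K[X]) = C l⁻¹ ^ 2 * C r := by
    rw [← C_pow, ← C_mul]
    congr 1
    field_simp
  unfold qq
  simp only [add_comp, mul_comp, X_comp, C_comp]
  simp only [C_pow, C_neg, h2]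
  linear_combination (X - C r) * h1

/-- the isomorphism -/
noncomputable def eqv (h : Sub l r a b c a' b' c') :
    AdjoinRoot (cub a' b' c') ≃ₐ[K] AdjoinRoot (cub a b c) :=
  AlgEquiv.ofAlgHom (hom h) (hom h.symm) (hom_hom h) (hom_hom' h)

theorem eqv_mk (h : Sub l r a b c a' b' c') (p : K[X]) :
    eqv h (AdjoinRoot.mk _ p) = AdjoinRoot.mk _ (p.comp (qq l r)) := hom_mk h p

theorem Sub.map (h : Sub l r a b c a' b' c') {L : Type} [Field L] (ι : K →+* L) :
    Sub (ι l) (ι r) (ι a) (ι b) (ι c) (ι a') (ι b') (ι c') := by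
  refine ⟨(map_ne_zero ι).2 h.ne, ?_, ?_, ?_⟩
  · rw [h.ha]
    simp only [map_sub, map_mul, map_pow, map_ofNat]
  · rw [h.hb]
    simp only [map_add, map_sub, map_mul, map_pow, map_ofNat]
  · rw [h.hc]
    simp only [map_add, map_sub, map_mul, map_pow]

theorem locSol (h : Sub l r a b c a' b' c') (p : K[X]) (hp : LocSol a' b' c' p) :
    LocSol a b c (p.comp (qq l r)) := by
  obtain ⟨x', y', hon, hy, s, w, hw⟩ := hp
  have hl := h.ne
  obtain ⟨x, hx⟩ : ∃ x, x' = l ^ 2 * x + r := ⟨(x' - r) / l ^ 2, by field_simp; ring⟩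
  obtain ⟨y, hyy⟩ : ∃ y, y' = l ^ 3 * y := ⟨y' / l ^ 3, by field_simp⟩
  refine ⟨x, y, ?_, ?_, C l⁻¹ * s.comp (qq l r), C (l ^ 4) * w.comp (qq l r), ?_⟩
  · unfold OnC at hon ⊢
    have h6 : l ^ 6 ≠ 0 := pow_ne_zero 6 hl
    apply mul_left_cancel₀ h6
    rw [hx, hyy, h.ha, h.hb, h.hc] at hon
    linear_combination hon
  · intro h0
    apply hy
    rw [hyy, h0, mul_zero]
  · have h1 := congrArg (fun P => P.comp (qq l r)) hw
    simp only [sub_comp, mul_comp, pow_comp, X_comp, C_comp] at h1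
    rw [cub_comp h] at h1
    have h2 : (C l⁻¹ : K[X]) ^ 2 * C l ^ 2 = 1 := by
      rw [← mul_pow, ← C_mul, inv_mul_cancel₀ hl, C_1, one_pow]
    have h3 : (C x' : K[X]) = C l ^ 2 * C x + C r := by
      rw [hx, C_add, C_mul, C_pow]
    have h4 : qq l r = C l ^ 2 * X + C r := by unfold qq; rw [C_pow]
    have h5 : (C (l ^ 6) : K[X]) = C l ^ 6 := C_pow
    have h6 : (C (l ^ 4) : K[X]) = C l ^ 4 := C_pow
    rw [h3, h5] at h1
    rw [h6]
    have h7 : (C l ^ 2 * C x + C r - qq l r : K[X]) = C l ^ 2 * (C x - X) := by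
      rw [h4]
      ring
    rw [h7] at h1
    linear_combination C l⁻¹ ^ 2 * h1 - (C x - X - C l ^ 4 * cub a b c * w.comp (qq l r)) * h2

theorem irr_iff (h : Sub l r a b c a' b' c') :
    Irreducible (cub a' b' c') → Irreducible (cub a b c) := by
  intro hi
  have hl := h.ne
  have e1 := cub_comp h
  let T : K[X] →+* K[X] := (compRingHom (qq l r))
  let T' : K[X] →+* K[X] := (compRingHom (qq l⁻¹ (-(r / l ^ 2))))
  have h1 : (C l⁻¹ : K[X]) ^ 2 * C l ^ 2 = 1 := by
    rw [← mul_pow, ← C_mul, inv_mul_cancel₀ hl, C_1, one_pow]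
  have h2 : (C (r / l ^ 2) : K[X]) = C l⁻¹ ^ 2 * C r := by
    rw [← C_pow, ← C_mul]
    congr 1
    field_simp
  have hTT : ∀ p : K[X], (p.comp (qq l r)).comp (qq l⁻¹ (-(r / l ^ 2))) = p := by
    intro p
    rw [comp_assoc]
    have : (qq l r).comp (qq l⁻¹ (-(r / l ^ 2))) = X := by
      unfold qq
      simp only [add_comp, mul_comp, X_comp, C_comp]
      simp only [C_pow, C_neg, h2]
      linear_combination (X - C r) * h1
    rw [this, comp_X]
  have hTT' : ∀ p : K[X], (p.comp (qq l⁻¹ (-(r / l ^ 2)))).comp (qq l r) = p := by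
    intro p
    rw [comp_assoc]
    have : (qq l⁻¹ (-(r / l ^ 2))).comp (qq l r) = X := by
      unfold qq
      simp only [add_comp, mul_comp, X_comp, C_comp]
      simp only [C_pow, C_neg, h2]
      linear_combination X * h1
    rw [this, comp_X]
  let E : K[X] ≃+* K[X] := RingEquiv.ofRingHom T T' (by
    apply RingHom.ext
    intro p
    exact hTT' p) (by
    apply RingHom.ext
    intro p
    exact hTT p)
  have h3 : Irreducible (E (cub a' b' c')) := (MulEquiv.irreducible_iff E).2 hi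
  have h4 : E (cub a' b' c') = C (l ^ 6) * cub a b c := e1
  rw [h4] at h3
  have h5 : IsUnit (C (l ^ 6) : K[X]) := isUnit_C.2 (isUnit_iff_ne_zero.2 (pow_ne_zero 6 hl))
  exact (irreducible_isUnit_mul h5).1 h3

end Gen

section Sel

variable {F : Type} [Field F]

/-- Local conditions over `F(t)`. -/
def LocK (L : Type) [Field L] [Algebra (RatFunc F) L] (a b c : RatFunc F)
    (u : AdjoinRoot (cub a b c)) : Prop :=
  ∃ p : (RatFunc F)[X], AdjoinRoot.mk (cub a b c) p = u ∧
    LocSol (algebraMap (RatFunc F) L a) (algebraMap (RatFunc F) L b)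
      (algebraMap (RatFunc F) L c) (p.map (algebraMap (RatFunc F) L))

/-- squares -/
noncomputable abbrev SqK (a b c : RatFunc F) : Subgroup (AdjoinRoot (cub a b c))ˣ :=
  (powMonoidHom 2 : (AdjoinRoot (cub a b c))ˣ →* _).range

open Classical in
/-- The Selmer group over `F(t)`. -/
def SelK (a b c : RatFunc F) : Set ((AdjoinRoot (cub a b c))ˣ ⧸ SqK a b c) :=
  {ξ | ∃ u : (AdjoinRoot (cub a b c))ˣ, QuotientGroup.mk u = ξ ∧
    IsSquare (Algebra.norm (RatFunc F) (u : AdjoinRoot (cub a b c))) ∧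
    (∀ v : IsDedekindDomain.HeightOneSpectrum F[X],
      LocK (v.adicCompletion (RatFunc F)) a b c (u : AdjoinRoot (cub a b c))) ∧
    LocK (RatFunc.CompletionAtInfty F) a b c (u : AdjoinRoot (cub a b c))}

theorem sel_eq (f : F[X] × F[X] × F[X]) : Sel f = SelK (kf f).1 (kf f).2.1 (kf f).2.2 := rfl

theorem locK (L : Type) [Field L] [Algebra (RatFunc F) L] {l r a b c a' b' c' : RatFunc F}
    (h : Sub l r a b c a' b' c') (u : AdjoinRoot (cub a' b' c')) (hu : LocK L a' b' c' u) :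
    LocK L a b c (eqv h u) := by
  obtain ⟨p, rfl, hp⟩ := hu
  refine ⟨p.comp (qq l r), (eqv_mk h p).symm, ?_⟩
  have h1 := locSol (h.map (algebraMap (RatFunc F) L)) _ hp
  have h2 : (p.comp (qq l r)).map (algebraMap (RatFunc F) L) =
      (p.map (algebraMap (RatFunc F) L)).comp
        (qq (algebraMap (RatFunc F) L l) (algebraMap (RatFunc F) L r)) := by
    rw [Polynomial.map_comp]
    congr 1
    unfold qq
    simp only [Polynomial.map_add, Polynomial.map_mul, Polynomial.map_C, Polynomial.map_X,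
      map_pow, Polynomial.map_pow]
  rw [h2]
  exact h1

theorem le_encard {l r a b c a' b' c' : RatFunc F} (h : Sub l r a b c a' b' c') :
    (SelK a' b' c').encard ≤ (SelK a b c).encard := by
  let e : (AdjoinRoot (cub a' b' c'))ˣ ≃* (AdjoinRoot (cub a b c))ˣ :=
    Units.mapEquiv (eqv h).toMulEquiv
  have he : (SqK a' b' c').map (e : _ →* _) = SqK a b c := by
    ext x
    constructor
    · rintro ⟨y, ⟨z, rfl⟩, rfl⟩
      refine ⟨e z, ?_⟩
      simp
    · rintro ⟨z, rfl⟩
      refine ⟨(e.symm z) ^ 2, ⟨e.symm z, rfl⟩, ?_⟩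
      simp
  let Ψ := QuotientGroup.congr (SqK a' b' c') (SqK a b c) e he
  refine Set.encard_le_encard_of_injOn (f := Ψ) ?_ (Ψ.injective.injOn)
  rintro ξ ⟨u, rfl, hsq, hv, hinf⟩
  refine ⟨e u, rfl, ?_, ?_, ?_⟩
  · have h1 : ((e u : (AdjoinRoot (cub a b c))ˣ) : AdjoinRoot (cub a b c)) =
        eqv h (u : AdjoinRoot (cub a' b' c')) := rfl
    rw [h1, Algebra.norm_eq_of_algEquiv]
    exact hsq
  · intro v
    exact locK _ h _ (hv v)
  · exact locK _ h _ hinf

end Sel

end SHI

open SHI in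
theorem shi_thm : SHIStmt := by
  intro F _ f f' l r hl hS
  have hinj := RatFunc.algebraMap_injective F
  have h : Sub (algebraMap F[X] (RatFunc F) l) (algebraMap F[X] (RatFunc F) r)
      (kf f).1 (kf f).2.1 (kf f).2.2 (kf f').1 (kf f').2.1 (kf f').2.2 := by
    obtain ⟨h1, h2, h3⟩ := hS
    refine ⟨fun h0 => hl (hinj (by rw [h0, map_zero])), ?_, ?_, ?_⟩
    · show algebraMap F[X] (RatFunc F) f'.1 = _
      rw [h1]
      simp only [map_sub, map_mul, map_pow, map_ofNat]
      rfl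
    · show algebraMap F[X] (RatFunc F) f'.2.1 = _
      rw [h2]
      simp only [map_sub, map_add, map_mul, map_pow, map_ofNat]
      rfl
    · show algebraMap F[X] (RatFunc F) f'.2.2 = _
      rw [h3]
      simp only [map_sub, map_add, map_mul, map_pow]
      rfl
  refine ⟨?_, ?_, ?_⟩
  · exact congrArg ENat.toNat (le_antisymm (le_encard h.symm) (le_encard h))
  · exact irr_iff h.symm
  · exact irr_iff h

end Pool.AVS
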