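import Pool.Agent.H14.AVS.S1
import Pool.Agent.H46.AVR.BAS
import Pool.Agent.H62.AVR.ISO

/-!
# Board `avs`, module TRC: the class is trivial exactly when there is a common isotropic vector
-/

set_option autoImplicit false

namespace Pool.AVS

open Polynomial Matrix Pool.AVR

namespace TRC

variable {K : Type} [Field K]

theorem bil_eq (T : K[X] →ₗ[K] K) (r : K[X]) (e : Fin 3 → K[X])
    (M : Matrix (Fin 3) (Fin 3) K) (hM : ∀ i j, T (r * (e i * e j)) = M i j) (z : Fin 3 → K) :
    T (r * ((∑ k, z k • e k) * (∑ k, z k • e k))) = bil M z z := by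
  have h := bas_bilin T r e M hM (Matrix.of fun k _ => z k) 0 0
  have h2 : ((Matrix.of fun k _ => z k : Matrix (Fin 3) (Fin 3) K)ᵀ * M *
      (Matrix.of fun k _ => z k)) 0 0 = bil M z z := by
    simp only [bil, Matrix.mul_apply, Matrix.mulVec, dotProduct, Fin.sum_univ_three,
      Matrix.transpose_apply, Matrix.of_apply]
    ring
  exact h.trans h2

/-- the three polynomials span the algebra -/
theorem span {a b c : K} {h : K[X]} {G : Matrix (Fin 3) (Fin 3) K} {e : Fin 3 → K[X]}
    (he : ∀ i j, tau a b c (e i * e j * h) = G i j) (hdet : G.det ≠ 0) (p : K[X]) :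
    ∃ z : Fin 3 → K, cub a b c ∣ p - ∑ i, z i • e i := by
  have hmon := bas_monic a b c
  have hT : ∀ p q : K[X], AdjoinRoot.mk (cub a b c) p = AdjoinRoot.mk (cub a b c) q →
      ∀ r : K[X], basT a b c (r * p) = basT a b c (r * q) := by
    intro p q hpq r
    rw [basT_apply, basT_apply]
    apply bas_tau_congr
    rw [← mul_sub]
    exact Dvd.dvd.mul_left (AdjoinRoot.mk_eq_mk.1 hpq) r
  have hli : LinearIndependent K (fun i => AdjoinRoot.mk (cub a b c) (e i)) := by
    rw [Fintype.linearIndependent_iff]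
    intro w hw
    have hw' : AdjoinRoot.mk (cub a b c) (∑ i, w i • e i) = AdjoinRoot.mk (cub a b c) 0 := by
      rw [map_zero, map_sum, ← hw]
      refine Finset.sum_congr rfl fun i _ => ?_
      rw [AdjoinRoot.smul_mk]
    have hv : w ᵥ* G = 0 := by
      funext j
      have h1 := hT _ _ hw' (h * e j)
      rw [mul_zero, map_zero, Finset.mul_sum, map_sum] at h1
      rw [Matrix.vecMul, dotProduct, Pi.zero_apply, ← h1]
      refine Finset.sum_congr rfl fun i _ => ?_
      rw [mul_smul_comm, map_smul, smul_eq_mul, basT_apply, ← he i j]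
      congr 2
      ring
    have hz := Matrix.eq_zero_of_vecMul_eq_zero hdet hv
    intro i
    exact congrFun hz i
  have hfin : Module.finrank K (AdjoinRoot (cub a b c)) = 3 := by
    rw [(AdjoinRoot.powerBasis' hmon).finrank, AdjoinRoot.powerBasis'_dim, bas_natDegree]
  have : Module.Finite K (AdjoinRoot (cub a b c)) := (AdjoinRoot.powerBasis' hmon).finite
  have hspan := hli.span_eq_top_of_card_eq_finrank' (by rw [hfin, Fintype.card_fin])
  have hmem : AdjoinRoot.mk (cub a b c) p ∈
      Submodule.span K (Set.range fun i => AdjoinRoot.mk (cub a b c) (e i)) := by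
    rw [hspan]
    trivial
  obtain ⟨z, hz⟩ := (Submodule.mem_span_range_iff_exists_fun K).1 hmem
  refine ⟨z, AdjoinRoot.mk_eq_mk.1 ?_⟩
  rw [← hz, map_sum]
  refine Finset.sum_congr rfl fun i _ => ?_
  rw [AdjoinRoot.smul_mk]

theorem AA_det_ne : (AA K).det ≠ 0 := by
  simp [AA, Matrix.det_fin_three]

theorem norm_C (a b c k : K) :
    Algebra.norm K (AdjoinRoot.mk (cub a b c) (C k)) = k ^ 3 := by
  have hfin : Module.finrank K (AdjoinRoot (cub a b c)) = 3 := by
    rw [(AdjoinRoot.powerBasis' (bas_monic a b c)).finrank, AdjoinRoot.powerBasis'_dim,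
      bas_natDegree]
  have h := Algebra.norm_algebraMap (S := AdjoinRoot (cub a b c)) k
  rw [hfin] at h
  exact h

end TRC

open TRC in
theorem trc_thm (hNGH : NGHStmt) : TRCStmt := by
  intro K _ h2 a b c h B hsep hR
  obtain ⟨hcop, r, hr⟩ := (hNGH K a b c h).2.2 B hR
  obtain ⟨e, he, heX⟩ := hR
  have hbA : ∀ z : Fin 3 → K, tau a b c (h * ((∑ k, z k • e k) * (∑ k, z k • e k))) =
      bil (AA K) z z := fun z => bil_eq (basT a b c) h e (AA K) (fun i j => by
        rw [basT_apply, ← he i j, mul_comm]) z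
  have hbB : ∀ z : Fin 3 → K, tau a b c (X * h * ((∑ k, z k • e k) * (∑ k, z k • e k))) =
      bil B z z := fun z => bil_eq (basT a b c) (X * h) e B (fun i j => by
        rw [basT_apply, ← heX i j]
        congr 1
        ring) z
  have hsq := hsep.squarefree
  constructor
  · rintro ⟨u, hu⟩
    -- `u` is a unit
    have hcu : IsCoprime u (cub a b c) := by
      obtain ⟨w, hw⟩ := hu
      have h3 : IsCoprime (u ^ 2 + cub a b c * w) (cub a b c) := by
        rw [← hw]
        ring_nf
        exact hcop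
      rw [add_comm, IsCoprime.mul_add_left_left_iff] at h3
      exact (IsCoprime.pow_left_iff two_pos).1 h3
    obtain ⟨v, w, hvw⟩ := hcu
    obtain ⟨z, hz⟩ := span he AA_det_ne v
    have hone : cub a b c ∣ h * ((∑ k, z k • e k) * (∑ k, z k • e k)) - 1 := by
      obtain ⟨p, hp⟩ := hz
      obtain ⟨q, hq⟩ := hu
      have e1 : (∑ k, z k • e k) = v - cub a b c * p := by rw [← hp]; ring
      have e2 : h = u ^ 2 + cub a b c * q := by rw [← hq]; ring
      rw [e1, e2]
      have e3 : v * u = 1 - w * cub a b c := by rw [← hvw]; ring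
      refine ⟨q * (v - cub a b c * p) ^ 2 + u ^ 2 * (-2 * v * p + cub a b c * p ^ 2) - 2 * w +
        w ^ 2 * cub a b c, ?_⟩
      have e4 : u ^ 2 * v ^ 2 = (1 - w * cub a b c) ^ 2 := by rw [← e3]; ring
      linear_combination e4
    have hdeg1 : (1 : K[X]) %ₘ cub a b c = 1 := ISOaux.rem_eq_self a b c 1 (by simp)
    have hdegX : (X : K[X]) %ₘ cub a b c = X := ISOaux.rem_eq_self a b c X (by simp)
    refine ⟨z, ?_, ?_, ?_⟩
    · intro h0
      rw [h0] at hone
      simp only [Pi.zero_apply, zero_smul, Finset.sum_const_zero, mul_zero, zero_sub] at hone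
      have h3 : cub a b c ∣ 1 := (dvd_neg.1 hone)
      have h4 := natDegree_le_of_dvd h3 one_ne_zero
      rw [bas_natDegree, natDegree_one] at h4
      omega
    · rw [← hbA, bas_tau_congr a b c _ 1 hone]
      unfold tau
      rw [hdeg1, coeff_one]
      simp
    · rw [← hbB, bas_tau_congr a b c _ X]
      · unfold tau
        rw [hdegX, coeff_X]
        simp
      · have h3 : X * h * ((∑ k, z k • e k) * (∑ k, z k • e k)) - X =
            X * (h * ((∑ k, z k • e k) * (∑ k, z k • e k)) - 1) := by ring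
        rw [h3]
        exact Dvd.dvd.mul_left hone X
  · rintro ⟨z, hz, hzA, hzB⟩
    obtain ⟨E, hE⟩ : ∃ E, E = ∑ k, z k • e k := ⟨_, rfl⟩
    have t0 := hbA z
    have t1 := hbB z
    rw [← hE] at t0 t1
    rw [hzA] at t0
    rw [hzB, mul_assoc] at t1
    obtain ⟨k, hk⟩ := ISOaux.const_of_tau a b c _ t0 t1
    have hk0 : k ≠ 0 := by
      intro hk0
      rw [hk0, C_0, sub_zero] at hk
      have h3 : cub a b c ∣ E * E := hcop.symm.dvd_of_dvd_mul_left hk
      have h4 : cub a b c ∣ E := by
        rw [← sq] at h3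
        exact (hsq.dvd_pow_iff_dvd two_ne_zero).1 h3
      have h5 : ∀ j, tau a b c (h * (E * e j)) = 0 := by
        intro j
        rw [bas_tau_congr a b c _ 0]
        · simp [tau]
        · rw [sub_zero]
          exact Dvd.dvd.mul_left (Dvd.dvd.mul_right h4 _) _
      have h6 : z ᵥ* (AA K) = 0 := by
        funext j
        have h7 := h5 j
        rw [hE, Finset.sum_mul, Finset.mul_sum, ← basT_apply, map_sum] at h7
        rw [Matrix.vecMul, dotProduct, Pi.zero_apply, ← h7]
        refine Finset.sum_congr rfl fun i _ => ?_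
        rw [smul_mul_assoc, mul_smul_comm, map_smul, smul_eq_mul, basT_apply, ← he i j,
          mul_comm h]
      exact hz (Matrix.eq_zero_of_vecMul_eq_zero AA_det_ne h6)
    -- norms
    have hN : (Algebra.norm K (AdjoinRoot.mk (cub a b c) E) * r) ^ 2 = k ^ 3 := by
      have h3 : AdjoinRoot.mk (cub a b c) (h * (E * E)) = AdjoinRoot.mk (cub a b c) (C k) :=
        AdjoinRoot.mk_eq_mk.2 hk
      have h4 := congrArg (Algebra.norm K) h3
      rw [norm_C, map_mul, map_mul, map_mul, map_mul, hr] at h4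
      rw [← h4]
      ring
    obtain ⟨s, hs⟩ : ∃ s : K, s ^ 2 = k := by
      refine ⟨Algebra.norm K (AdjoinRoot.mk (cub a b c) E) * r / k, ?_⟩
      rw [div_pow, hN]
      field_simp
    -- `E` is a unit
    have hcE : IsCoprime E (cub a b c) := by
      obtain ⟨w, hw⟩ := hk
      have h3 : h * (E * E) = C k + cub a b c * w := by rw [← hw]; ring
      refine ⟨C k⁻¹ * h * E, -(C k⁻¹ * w), ?_⟩
      have h4 : C k⁻¹ * C k = (1 : K[X]) := by rw [← C_mul, inv_mul_cancel₀ hk0, C_1]
      linear_combination C k⁻¹ * h3 + h4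
    obtain ⟨f, g, hfg⟩ := hcE
    refine ⟨C s * f, ?_⟩
    obtain ⟨w, hw⟩ := hk
    have hs' : (C s : K[X]) ^ 2 = C k := by rw [← C_pow, hs]
    have h3 : f * E = 1 - g * cub a b c := by rw [← hfg]; ring
    have h4 : h * (E * E) = C k + cub a b c * w := by rw [← hw]; ring
    have h5 : (f * E) ^ 2 = (1 - g * cub a b c) ^ 2 := by rw [h3]
    refine ⟨w * f ^ 2 + h * (2 * g - g ^ 2 * cub a b c), ?_⟩
    linear_combination f ^ 2 * h4 - h * h5 - f ^ 2 * hs'

end Pool.AVS
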